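import Pool.Agent.H75.IE4

set_option autoImplicit false
open scoped ENNReal

open Pool.Agent.H75.IE in
theorem Pool.Agent.Results.MP_286868_an.Yes.result :
  ∀ (H : Type) [NormedAddCommGroup H] [InnerProductSpace ℂ H] [CompleteSpace H]
    (A F G : VonNeumannAlgebra H) (Ω : H) (U : H →L[ℂ] H)
    (σ τ : (H →L[ℂ] H) → ℝ≥0∞),
    IsSystem A Ω U → IsSub A F U → IsSub A G U → (∀ f ∈ F, f ∈ G) →
    IsBar A F Ω σ → IsBar A G Ω τ →
    Isometric A F Ω U σ → Isometric A G Ω U τ :=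
  fun _ _ _ _ _ _ _ _ _ _ _ S hF hG hFG hσ hτ h => main S hF hG hFG hσ hτ h
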